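import Pool.Agent.SSF.Stmts

/-!
# Row RLM of squad SSF: open subsets of `S × M` are stable (helper4)
-/

set_option autoImplicit false

open Set Topology
open scoped BigOperators

namespace Pool.Agent.SSF.H4

open Pool.Agent.LSG Pool.Agent.LPR Pool.Agent.SSF

/-- every value of the moved function is a multiple of one value -/
theorem gm_one {S M : Type} (η : ℕ → M → M) (ψ : S × M → ℝ) (x : S × M) :
    ∃ (c : ℝ) (y : (S × M) × OnePoint ℕ), ∀ F, Gm η ψ F x = c * F y := by
  classical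
  by_cases h : ∃ q : ℕ × M, η q.1 q.2 = x.2
  · refine ⟨ψ (x.1, (Classical.choose h).2),
      ((x.1, (Classical.choose h).2), (((Classical.choose h).1 : ℕ) : OnePoint ℕ)), fun F => ?_⟩
    unfold Gm
    rw [dif_pos h]
  · refine ⟨0, (x, OnePoint.infty), fun F => ?_⟩
    unfold Gm
    rw [dif_neg h, zero_mul]

/-- every value of the embedding is a finite combination of values -/
theorem im_fin (hUnm : UnmStmt) {S M : Type} [TopologicalSpace S] [MetricSpace M]
    {O : Set (S × M)} {ρ : C(S × M, ℝ)} {χ ψ : ℕ → ℕ → C(S × M, ℝ)} {K : ℕ → ℕ}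
    {c p : ℕ → ℕ → M} {η : ℕ → ℕ → ℕ → M → M} {w : ℕ → ℕ → C(M, ℝ)} {θ : ℕ → C(ℝ, ℝ)}
    (ν : ℕ → ℕ → M → (M →₀ ℝ)) (hP : Pieces O ρ χ ψ K c) (hS : Plots K c p η w) (hC : Cut θ)
    (x : S × M) :
    ∃ (T : Finset M) (e : M → ℝ) (y : M → (S × M) × OnePoint ℕ), ∀ F,
      im θ ρ ψ η w ν F x = ∑ a ∈ T, e a * F (y a) := by
  classical
  have h1 := (hUnm S M O ρ χ ψ K c p η w θ hP hS hC).1 x
  by_cases h : ∃ α : ℕ × ℕ, θ α.1 (ρ x) * w α.1 α.2 x.2 ≠ 0
  · obtain ⟨α, hα⟩ := h
    choose e y hey using fun a : M => gm_one (η α.1 α.2) (ψ α.1 α.2) (x.1, a)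
    refine ⟨(ν α.1 α.2 x.2).support,
      fun a => θ α.1 (ρ x) * w α.1 α.2 x.2 * (ν α.1 α.2 x.2 a * e a), y, fun F => ?_⟩
    unfold im
    rw [finsum_eq_single _ α ?_]
    · rw [Finsupp.sum, Finset.mul_sum]
      refine Finset.sum_congr rfl fun a _ => ?_
      rw [hey a F]
      ring
    · intro β hβ
      have hz : θ β.1 (ρ x) * w β.1 β.2 x.2 = 0 := by
        by_contra hne
        obtain ⟨e1, e2⟩ := h1 _ _ _ _ hne hα
        exact hβ (Prod.ext e1 e2)
      rw [hz, zero_mul]
  · refine ⟨∅, fun _ => 0, fun _ => (x, OnePoint.infty), fun F => ?_⟩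
    rw [Finset.sum_empty]
    unfold im
    refine finsum_eq_zero_of_forall_eq_zero fun β => ?_
    have hz : θ β.1 (ρ x) * w β.1 β.2 x.2 = 0 := by
      by_contra hne
      exact h ⟨β, hne⟩
    rw [hz, zero_mul]

/-- every value of the projection is a finite combination of values -/
theorem pm_fin {S M : Type} [TopologicalSpace S] [MetricSpace M]
    {O : Set (S × M)} {ρ : C(S × M, ℝ)} {χ ψ : ℕ → ℕ → C(S × M, ℝ)} {K : ℕ → ℕ}
    {c : ℕ → ℕ → M} (p : ℕ → ℕ → M) (η : ℕ → ℕ → ℕ → M → M) (hP : Pieces O ρ χ ψ K c)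
    (x : S × M) (n : ℕ) :
    ∃ T : Finset (ℕ × ℕ), ∀ g : S × M → ℝ, pm χ p η g n x =
      ∑ α ∈ T, χ α.1 α.2 x * (g (x.1, η α.1 α.2 n x.2) - g (x.1, p α.1 α.2)) := by
  classical
  have h1 : ∃ T : Finset (ℕ × ℕ), ∀ m k, χ m k x ≠ 0 → (m, k) ∈ T := by
    by_cases hr : 0 < ρ x
    · obtain ⟨N, hN⟩ := exists_pow_lt_of_lt_one (show (0 : ℝ) < ρ x / 4 by positivity)
        (show (1 / 2 : ℝ) < 1 by norm_num)
      refine ⟨(Finset.range N).biUnion fun m => (Finset.range (K m)).image fun k => (m, k), ?_⟩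
      intro m k hk
      have hψ : ψ m k x ≠ 0 := by
        rw [hP.one m k x hk]
        exact one_ne_zero
      obtain ⟨g1, -, g3, -⟩ := hP.supp m k x hψ
      rw [Finset.mem_biUnion]
      refine ⟨m, ?_, Finset.mem_image.2 ⟨k, Finset.mem_range.2 g1, rfl⟩⟩
      rw [Finset.mem_range]
      by_contra hcon
      have h5 : (1 / 2 : ℝ) ^ m ≤ (1 / 2 : ℝ) ^ N :=
        pow_le_pow_of_le_one (by norm_num) (by norm_num) (not_lt.1 hcon)
      linarith
    · refine ⟨∅, fun m k hk => absurd ?_ hr⟩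
      have hψ : ψ m k x ≠ 0 := by
        rw [hP.one m k x hk]
        exact one_ne_zero
      have h2 := (hP.supp m k x hψ).2.1
      have h3 : (0 : ℝ) < (1 / 2 : ℝ) ^ (m + 2) := by positivity
      exact h3.trans h2
  obtain ⟨T, hT⟩ := h1
  refine ⟨T, fun g => ?_⟩
  unfold pm
  refine finsum_eq_sum_of_support_subset _ ?_
  intro α hα
  rw [Function.mem_support] at hα
  refine Finset.mem_coe.2 (hT α.1 α.2 ?_)
  intro h0
  exact hα (by rw [h0, zero_mul])

theorem rlm (hHam : HamStmt) (hPam : PamStmt) (hSlm : SlmStmt) (hExm : ExmStmt) (hGmc : GmcStmt)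
    (hUnm : UnmStmt) (hImm : ImmStmt) (hPrm : PrmStmt) (hQrm : QrmStmt) : RlmStmt := by
  classical
  intro S M _ _ _ _ _ hSim O hO
  obtain ⟨-, -, θ, -, -, hθ1, -, -, hθ2, hθ3, -⟩ := hHam
  have hC : Cut θ := ⟨hθ1, hθ2, hθ3⟩
  obtain ⟨K, c, hKc⟩ := hPam S M
  obtain ⟨ρ, χ, ψ, hP⟩ := hKc O hO
  obtain ⟨p, η, w, hS⟩ := hSlm M hSim K c
  have hLim : ∀ m k, IsClosed (Lim (p m k) (η m k)) := by
    intro m k
    exact (hGmc S M (p m k) (η m k) ((1 / 2 : ℝ) ^ (m + 6)) (ContinuousMap.const _ 0) (fun _ => 0)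
      (hS.cont m k) (hS.inj m k) (hS.ne m k) (hS.conv m k)
      (fun x => ⟨le_refl _, zero_le_one⟩) continuous_const (fun _ => rfl)).2.2.1
  choose ν hν1 hν2 hν3 hν4 hν5 using fun m k =>
    hExm M (Lim (p m k) (η m k)) (hLim m k) ⟨p m k, Or.inl rfl⟩
  have hW : Wts p η ν := ⟨hν1, hν2, hν3, hν4, fun m k S' _ g hg => hν5 m k S' g hg⟩
  have hI := hImm S M O ρ χ ψ K c p η w θ ν hP hS hC hW
  have hQ := hQrm S M O ρ χ ψ K c p η w θ ν hP hS hC hW
  choose G hGm hG using hPrm S M O ρ χ ψ K c p η w hP hS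
  choose A e y hey using im_fin hUnm ν hP hS hC
  choose T hT using pm_fin p η hP
  let iL : ↥(Sg O) →ₗ[ℝ] ↥(Fo O) :=
    { toFun := fun F => ⟨im θ ρ ψ η w ν F.1, hI F.1 F.2⟩
      map_add' := by
        intro F F'
        apply Subtype.ext
        funext x
        show im θ ρ ψ η w ν (F.1 + F'.1) x = im θ ρ ψ η w ν F.1 x + im θ ρ ψ η w ν F'.1 x
        rw [hey, hey, hey, ← Finset.sum_add_distrib]
        refine Finset.sum_congr rfl fun a _ => ?_
        rw [Pi.add_apply, mul_add]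
      map_smul' := by
        intro r F
        apply Subtype.ext
        funext x
        show im θ ρ ψ η w ν (r • F.1) x = r • im θ ρ ψ η w ν F.1 x
        rw [hey, hey, Finset.smul_sum]
        refine Finset.sum_congr rfl fun a _ => ?_
        rw [Pi.smul_apply, smul_eq_mul, smul_eq_mul]
        ring }
  have hiC : Continuous iL := by
    refine Continuous.subtype_mk (continuous_pi fun x => ?_) _
    have h1 : (fun F : ↥(Sg O) => im θ ρ ψ η w ν F.1 x) =
        fun F : ↥(Sg O) => ∑ a ∈ A x, e x a * F.1 (y x a) := by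
      funext F
      exact hey x F.1
    rw [h1]
    refine continuous_finsetSum _ fun a _ => ?_
    exact continuous_const.mul ((continuous_apply (y x a)).comp continuous_subtype_val)
  have hGi : ∀ (g : S × M → ℝ) (hg : g ∈ Fo O) (x : S × M),
      G g hg (x, OnePoint.infty) = 0 := fun g hg x => (hGm g hg).2.2 x
  let pL : ↥(Fo O) →ₗ[ℝ] ↥(Sg O) :=
    { toFun := fun g => ⟨G g.1 g.2, hGm g.1 g.2⟩
      map_add' := by
        intro g g'
        apply Subtype.ext
        funext q
        obtain ⟨x, n⟩ := q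
        show G (g.1 + g'.1) _ (x, n) = G g.1 g.2 (x, n) + G g'.1 g'.2 (x, n)
        induction n using OnePoint.rec with
        | infty => rw [hGi, hGi, hGi, add_zero]
        | coe n =>
          rw [hG, hG, hG, hT, hT, hT, ← Finset.sum_add_distrib]
          refine Finset.sum_congr rfl fun α _ => ?_
          rw [Pi.add_apply, Pi.add_apply]
          ring
      map_smul' := by
        intro r g
        apply Subtype.ext
        funext q
        obtain ⟨x, n⟩ := q
        show G (r • g.1) _ (x, n) = r • G g.1 g.2 (x, n)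
        induction n using OnePoint.rec with
        | infty => rw [hGi, hGi, smul_zero]
        | coe n =>
          rw [hG, hG, hT, hT, Finset.smul_sum]
          refine Finset.sum_congr rfl fun α _ => ?_
          rw [Pi.smul_apply, Pi.smul_apply, smul_eq_mul, smul_eq_mul, smul_eq_mul]
          ring }
  have hpC : Continuous pL := by
    refine Continuous.subtype_mk (continuous_pi fun q => ?_) _
    obtain ⟨x, n⟩ := q
    induction n using OnePoint.rec with
    | infty =>
      have h1 : (fun g : ↥(Fo O) => G g.1 g.2 (x, OnePoint.infty)) = fun _ => (0 : ℝ) := by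
        funext g
        exact hGi g.1 g.2 x
      rw [h1]
      exact continuous_const
    | coe n =>
      have h1 : (fun g : ↥(Fo O) => G g.1 g.2 (x, (n : OnePoint ℕ))) = fun g : ↥(Fo O) =>
          ∑ α ∈ T x n, χ α.1 α.2 x *
            (g.1 (x.1, η α.1 α.2 n x.2) - g.1 (x.1, p α.1 α.2)) := by
        funext g
        rw [hG, hT]
      rw [h1]
      refine continuous_finsetSum _ fun α _ => ?_
      exact continuous_const.mul (((continuous_apply _).comp continuous_subtype_val).sub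
        ((continuous_apply _).comp continuous_subtype_val))
  refine ⟨⟨iL, hiC⟩, ⟨pL, hpC⟩, ?_⟩
  intro F
  apply Subtype.ext
  funext q
  obtain ⟨x, n⟩ := q
  show G (im θ ρ ψ η w ν F.1) _ (x, n) = F.1 (x, n)
  induction n using OnePoint.rec with
  | infty => rw [hGi, F.2.2.2 x]
  | coe n => rw [hG, hQ F.1 F.2 x n]

end Pool.Agent.SSF.H4
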