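import Pool.Agent.SSF.Stmts

/-!
# Row HAM of squad SSF: partition in the scale, and two cutoffs (second proof, helper4)
-/

set_option autoImplicit false

open Set Topology
open scoped BigOperators

namespace Pool.Agent.SSF.H4H

open Pool.Agent.LSG Pool.Agent.LPR Pool.Agent.SSF

/-- a trapezoid -/
noncomputable def tz (A B C E : ℝ) : C(ℝ, ℝ) :=
  ⟨fun r => max 0 (min 1 (min (r * A - 1) ((B - r * C) / E))),
    continuous_const.max (continuous_const.min
      (((continuous_id.mul continuous_const).sub continuous_const).min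
        ((continuous_const.sub (continuous_id.mul continuous_const)).div_const _)))⟩

theorem tz_apply (A B C E r : ℝ) :
    tz A B C E r = max 0 (min 1 (min (r * A - 1) ((B - r * C) / E))) := rfl

theorem tz01 (A B C E r : ℝ) : 0 ≤ tz A B C E r ∧ tz A B C E r ≤ 1 :=
  ⟨le_max_left _ _, max_le zero_le_one (min_le_left _ _)⟩

theorem tz_one (A B C E r : ℝ) (h1 : 1 ≤ r * A - 1) (h2 : 1 ≤ (B - r * C) / E) :
    tz A B C E r = 1 := by
  rw [tz_apply, min_eq_left (le_min h1 h2)]
  exact max_eq_right zero_le_one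

theorem tz_ne (A B C E r : ℝ) (h : tz A B C E r ≠ 0) : 0 < r * A - 1 ∧ 0 < (B - r * C) / E := by
  rw [tz_apply] at h
  constructor
  · by_contra hcon
    exact h (max_eq_left (((min_le_right _ _).trans (min_le_left _ _)).trans (not_lt.1 hcon)))
  · by_contra hcon
    exact h (max_eq_left (((min_le_right _ _).trans (min_le_right _ _)).trans (not_lt.1 hcon)))

theorem ham (hHat : HatStmt) : HamStmt := by
  obtain ⟨h₀, a1, a2, a3⟩ := hHat
  have hp : ∀ m : ℕ, (1 / 2 : ℝ) ^ m * 2 ^ m = 1 := by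
    intro m
    rw [← mul_pow]
    norm_num
  have hq : ∀ m : ℕ, (0 : ℝ) < 2 ^ m := fun m => by positivity
  refine ⟨fun m => h₀ m * h₀ m, fun m => tz (2 ^ (m + 2)) 4 (2 ^ m) 2,
    fun m => tz (2 ^ (m + 4)) 16 (2 ^ m) 8, fun m r => ?_, fun m r => tz01 _ _ _ _ _,
    fun m r => tz01 _ _ _ _ _, fun m r h => ?_, fun m r h => ?_, fun m r h1 h2 => ?_,
    fun m r h => ?_, fun r h1 h2 => ?_⟩
  · exact mul_self_nonneg _
  · have h0 : h₀ m r ≠ 0 := fun h0 => h (by
      show h₀ m r * h₀ m r = 0
      rw [h0, zero_mul])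
    obtain ⟨h1, h2⟩ := a2 m r h0
    have e1 : (1 / 2 : ℝ) ^ (m + 1) * 2 ^ (m + 1) = 1 := hp (m + 1)
    have e2 := hp m
    apply tz_one
    · have h3 := mul_lt_mul_of_pos_right h1 (hq (m + 1))
      rw [e1] at h3
      have h4 : r * 2 ^ (m + 2) = 2 * (r * 2 ^ (m + 1)) := by ring
      linarith
    · have h3 := mul_lt_mul_of_pos_right h2 (hq m)
      rw [mul_assoc, e2] at h3
      linarith
  · obtain ⟨h1, h2⟩ := tz_ne _ _ _ _ _ h
    have e1 := hp (m + 2)
    have e2 := hp m
    constructor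
    · by_contra hcon
      have h3 := mul_le_mul_of_nonneg_right (not_lt.1 hcon) (hq (m + 2)).le
      linarith
    · by_contra hcon
      have h3 := mul_le_mul_of_nonneg_right (not_lt.1 hcon) (hq m).le
      rw [mul_assoc, e2] at h3
      linarith
  · have e1 := hp (m + 3)
    have e2 := hp m
    apply tz_one
    · have h3 := mul_le_mul_of_nonneg_right h1 (hq (m + 3)).le
      have h4 : r * 2 ^ (m + 4) = 2 * (r * 2 ^ (m + 3)) := by ring
      linarith
    · have h3 := mul_le_mul_of_nonneg_right h2 (hq m).le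
      rw [mul_assoc, e2] at h3
      linarith
  · obtain ⟨h1, h2⟩ := tz_ne _ _ _ _ _ h
    have e1 := hp (m + 4)
    have e2 := hp m
    constructor
    · by_contra hcon
      have h3 := mul_le_mul_of_nonneg_right (not_lt.1 hcon) (hq (m + 4)).le
      linarith
    · by_contra hcon
      have h3 := mul_le_mul_of_nonneg_right (not_lt.1 hcon) (hq m).le
      rw [mul_assoc, e2] at h3
      linarith
  · obtain ⟨j, h3, h4⟩ := a3 r h1 h2
    refine ⟨j, fun m hm => h3 m fun h0 => hm ?_, ?_⟩
    · show h₀ m r * h₀ m r = 0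
      rw [h0, zero_mul]
    · show h₀ j r * h₀ j r + h₀ (j + 1) r * h₀ (j + 1) r = 1
      rw [← h4]
      ring

end Pool.Agent.SSF.H4H
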