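import Pool.Agent.SSF.Stmts

/-!
# Row SLM of squad SSF: existence of the slots (second proof, helper4)
-/

set_option autoImplicit false

open Set Topology
open scoped BigOperators

namespace Pool.Agent.SSF.H4S

open Pool.Agent.LSG Pool.Agent.LPR Pool.Agent.SSF

/-- `M` is infinite -/
theorem inf_ {M : Type} [MetricSpace M] [Nontrivial M] (h : Sim M) : Infinite M := by
  by_contra hcon
  rw [not_infinite_iff_finite] at hcon
  obtain ⟨x, y, hxy⟩ := exists_pair_ne M
  have hop : IsOpen ({x} : Set M) := by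
    have hf : ({x}ᶜ : Set M).Finite := Set.toFinite _
    have := hf.isClosed
    rw [← isOpen_compl_iff, compl_compl] at this
    exact this
  obtain ⟨η, -, hη, hU⟩ := h {x} hop ⟨x, rfl⟩
  have h1 : η x = x := hU x
  have h2 : η y = x := hU y
  exact hxy (hη (h1.trans h2.symm))

theorem ball_inf {M : Type} [MetricSpace M] [Nontrivial M] (h : Sim M) (x : M) (d : ℝ)
    (hd : 0 < d) : (Metric.ball x d).Infinite := by
  haveI := inf_ h
  obtain ⟨η, -, hη, hU⟩ := h (Metric.ball x d) Metric.isOpen_ball ⟨x, Metric.mem_ball_self hd⟩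
  exact (Set.infinite_range_of_injective hη).mono (by
    rintro _ ⟨u, rfl⟩
    exact hU u)

theorem near {M : Type} [MetricSpace M] [Nontrivial M] (h : Sim M) (x : M) (d : ℝ) (hd : 0 < d) :
    ∃ q, q ≠ x ∧ dist q x < d := by
  obtain ⟨q, hq, hqx⟩ := (ball_inf h x d hd).exists_notMem_finset {x}
  exact ⟨q, fun h0 => hqx (by simp [h0]), hq⟩

/-- injective choice from a sequence of infinite sets -/
theorem inj_choice {M : Type} (S : ℕ → Set M) (hS : ∀ n, (S n).Infinite) :
    ∃ f : ℕ → M, Function.Injective f ∧ ∀ n, f n ∈ S n := by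
  classical
  choose pick h1 h2 using fun (A : Finset M) (n : ℕ) => (hS n).exists_notMem_finset A
  let A : ℕ → Finset M := fun n => Nat.rec ∅ (fun n A => insert (pick A n) A) n
  have hA : ∀ n, A (n + 1) = insert (pick (A n) n) (A n) := fun n => rfl
  have hmono : ∀ i n, i ≤ n → A i ⊆ A n := by
    intro i n hin
    induction n, hin using Nat.le_induction with
    | base => exact subset_rfl
    | succ n _ ih =>
      rw [hA]
      exact ih.trans (Finset.subset_insert _ _)
  have hlt : ∀ i n, i < n → pick (A i) i ≠ pick (A n) n := by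
    intro i n hin he
    have h3 : pick (A i) i ∈ A (i + 1) := by
      rw [hA]
      exact Finset.mem_insert_self _ _
    have h4 := hmono (i + 1) n hin h3
    rw [he] at h4
    exact h2 _ _ h4
  refine ⟨fun n => pick (A n) n, fun i n he => ?_, fun n => h1 _ _⟩
  rcases lt_trichotomy i n with h | h | h
  · exact absurd he (hlt i n h)
  · exact h
  · exact absurd he.symm (hlt n i h)

theorem min_pos {ι : Type} (T : Finset ι) (f : ι → ℝ) (hf : ∀ i ∈ T, 0 < f i) (d : ℝ)
    (hd : 0 < d) : ∃ r, 0 < r ∧ r ≤ d ∧ ∀ i ∈ T, r ≤ f i := by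
  classical
  induction T using Finset.induction_on with
  | empty => exact ⟨d, hd, le_refl _, fun i hi => absurd hi (Finset.notMem_empty i)⟩
  | insert a T _ ih =>
    obtain ⟨r, hr, hrd, hrT⟩ := ih fun i hi => hf i (Finset.mem_insert_of_mem hi)
    refine ⟨min r (f a), lt_min hr (hf a (Finset.mem_insert_self _ _)),
      (min_le_left _ _).trans hrd, fun i hi => ?_⟩
    rcases Finset.mem_insert.1 hi with h | h
    · rw [h]
      exact min_le_right _ _
    · exact (min_le_left _ _).trans (hrT i h)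

theorem annuli {M : Type} [MetricSpace M] [Nontrivial M] (h : Sim M) (p : M) (r : ℝ)
    (hr : 0 < r) : ∃ η : ℕ → M → M, (∀ n, Continuous (η n)) ∧
      (∀ n n' u u', η n u = η n' u' → n = n' ∧ u = u') ∧ (∀ n u, η n u ≠ p) ∧
      ∀ n u, dist (η n u) p < r / (2 * ((n : ℝ) + 1)) := by
  classical
  have h1 : ∀ d : ℝ, ∃ q : M, 0 < d → q ≠ p ∧ dist q p < d := by
    intro d
    by_cases hd : 0 < d
    · obtain ⟨q, hq⟩ := near h p d hd
      exact ⟨q, fun _ => hq⟩
    · exact ⟨p, fun h0 => absurd h0 hd⟩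
  choose Q hQ using h1
  let D : ℕ → ℝ := fun n => Nat.rec (r / 2)
    (fun n d => dist (Q (min d (r / (2 * ((n : ℝ) + 1))))) p / 2) n
  let R : ℕ → ℝ := fun n => min (D n) (r / (2 * ((n : ℝ) + 1)))
  have hD0 : D 0 = r / 2 := rfl
  have hD1 : ∀ n, D (n + 1) = dist (Q (R n)) p / 2 := fun n => rfl
  have hr1 : ∀ n : ℕ, 0 < r / (2 * ((n : ℝ) + 1)) := fun n => by positivity
  have hDpos : ∀ n, 0 < D n := by
    intro n
    induction n with
    | zero => rw [hD0]; positivity
    | succ n ih =>
      rw [hD1]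
      have h2 : 0 < R n := lt_min ih (hr1 n)
      have h3 := (hQ (R n) h2).1
      have h4 : 0 < dist (Q (R n)) p := dist_pos.2 h3
      positivity
  have hRpos : ∀ n, 0 < R n := fun n => lt_min (hDpos n) (hr1 n)
  have hDR : ∀ n, D (n + 1) < R n := by
    intro n
    rw [hD1]
    have h2 := (hQ (R n) (hRpos n)).2
    have h3 := hRpos n
    linarith
  have hRD : ∀ n, R n ≤ D n := fun n => min_le_left _ _
  have hanti : Antitone D := antitone_nat_of_succ_le fun n => ((hDR n).trans_le (hRD n)).le
  have hU : ∀ n, ∃ η : M → M, Continuous η ∧ Function.Injective η ∧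
      ∀ u, η u ∈ {t : M | D (n + 1) < dist t p ∧ dist t p < R n} := by
    intro n
    refine h _ ?_ ?_
    · have hc : Continuous fun t : M => dist t p := continuous_id.dist continuous_const
      exact (isOpen_lt continuous_const hc).inter (isOpen_lt hc continuous_const)
    · refine ⟨Q (R n), ?_, (hQ (R n) (hRpos n)).2⟩
      rw [hD1]
      have h4 : 0 < dist (Q (R n)) p := dist_pos.2 (hQ (R n) (hRpos n)).1
      linarith
  choose η h2 h3 h4 using hU
  have hlt : ∀ n n' u u', n < n' → η n u ≠ η n' u' := by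
    intro n n' u u' hn he
    have h5 := (h4 n u).1
    have h6 := (h4 n' u').2
    have h7 := hanti (show n + 1 ≤ n' from hn)
    have h8 := hRD n'
    rw [he] at h5
    linarith
  refine ⟨η, h2, ?_, ?_, ?_⟩
  · intro n n' u u' he
    rcases lt_trichotomy n n' with hn | hn | hn
    · exact absurd he (hlt n n' u u' hn)
    · subst hn
      exact ⟨rfl, h3 n he⟩
    · exact absurd he.symm (hlt n' n u' u hn)
  · intro n u he
    have h5 := (h4 n u).1
    rw [he, dist_self] at h5
    exact absurd h5 (not_lt.2 (hDpos (n + 1)).le)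
  · intro n u
    exact lt_of_lt_of_le (h4 n u).2 (min_le_right _ _)

theorem slm : SlmStmt := by
  classical
  intro M _ _ _ hSim K c
  -- the points
  obtain ⟨f, hf1, hf2⟩ := inj_choice (fun n => Metric.ball (c (Nat.unpair n).1 (Nat.unpair n).2)
    ((1 / 2 : ℝ) ^ ((Nat.unpair n).1 + 6))) (fun n => ball_inf hSim _ _ (by positivity))
  let p : ℕ → ℕ → M := fun m k => f (Nat.pair m k)
  have hp1 : ∀ m k, dist (p m k) (c m k) < (1 / 2 : ℝ) ^ (m + 6) := by
    intro m k
    have := hf2 (Nat.pair m k)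
    simp only [Nat.unpair_pair] at this
    exact this
  have hp2 : ∀ m k m' k', (m, k) ≠ (m', k') → 0 < dist (p m k) (p m' k') := by
    intro m k m' k' hne
    refine dist_pos.2 fun he => hne ?_
    have h1 := hf1 he
    obtain ⟨h2, h3⟩ := Nat.pair_eq_pair.1 h1
    rw [h2, h3]
  -- the radii
  have hr : ∀ m k, ∃ r : ℝ, 0 < r ∧ r ≤ (1 / 2 : ℝ) ^ (m + 6) ∧
      ∀ m' k', m' ≤ m + 7 → k' < K m' → (m, k) ≠ (m', k') →
        3 * r ≤ dist (p m k) (p m' k') := by
    intro m k
    obtain ⟨r, hr0, hr1, hr2⟩ := min_pos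
      (((Finset.range (m + 8)).biUnion fun m' => (Finset.range (K m')).image
        fun k' => (m', k')).filter fun α => (m, k) ≠ α)
      (fun α => dist (p m k) (p α.1 α.2) / 3)
      (fun α hα => by
        have h1 := (Finset.mem_filter.1 hα).2
        have h2 := hp2 m k α.1 α.2 h1
        positivity) ((1 / 2 : ℝ) ^ (m + 6)) (by positivity)
    refine ⟨r, hr0, hr1, fun m' k' hm' hk' hne => ?_⟩
    have h3 := hr2 (m', k') (by
      rw [Finset.mem_filter, Finset.mem_biUnion]
      exact ⟨⟨m', Finset.mem_range.2 (by omega), Finset.mem_image.2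
        ⟨k', Finset.mem_range.2 hk', rfl⟩⟩, hne⟩)
    have h4 : r ≤ dist (p m k) (p m' k') / 3 := h3
    linarith
  choose r hr0 hr1 hr2 using hr
  choose η hη1 hη2 hη3 hη4 using fun m k => annuli hSim (p m k) (r m k) (hr0 m k)
  -- the cutoffs
  let w : ℕ → ℕ → C(M, ℝ) := fun m k => if k < K m then
    ⟨fun t => max 0 (min 1 (2 - 2 * dist t (p m k) / r m k)),
      continuous_const.max (continuous_const.min (continuous_const.sub
        ((continuous_const.mul (continuous_id.dist continuous_const)).div_const _)))⟩ else 0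
  have hw1 : ∀ m k t, k < K m → w m k t = max 0 (min 1 (2 - 2 * dist t (p m k) / r m k)) := by
    intro m k t hk
    show (if k < K m then _ else _ : C(M, ℝ)) t = _
    rw [if_pos hk]
    rfl
  have hw0 : ∀ m k t, ¬ k < K m → w m k t = 0 := by
    intro m k t hk
    show (if k < K m then _ else _ : C(M, ℝ)) t = _
    rw [if_neg hk]
    rfl
  have hwone : ∀ m k t, k < K m → dist t (p m k) ≤ r m k / 2 → w m k t = 1 := by
    intro m k t hk hd
    rw [hw1 m k t hk]
    have h1 : 1 ≤ 2 - 2 * dist t (p m k) / r m k := by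
      have h2 : 2 * dist t (p m k) / r m k ≤ 1 := by
        rw [div_le_one (hr0 m k)]
        linarith
      linarith
    rw [min_eq_left h1]
    exact max_eq_right zero_le_one
  have hwne : ∀ m k t, w m k t ≠ 0 → k < K m ∧ dist t (p m k) < r m k := by
    intro m k t hne
    have hk : k < K m := by
      by_contra hk
      exact hne (hw0 m k t hk)
    refine ⟨hk, ?_⟩
    by_contra hcon
    apply hne
    rw [hw1 m k t hk]
    have h1 : 2 - 2 * dist t (p m k) / r m k ≤ 0 := by
      have h2 : 2 ≤ 2 * dist t (p m k) / r m k := by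
        rw [le_div_iff₀ (hr0 m k)]
        linarith [not_lt.1 hcon]
      linarith
    exact max_eq_left ((min_le_right _ _).trans h1)
  refine ⟨p, η, w, ⟨hη1, hη2, hη3, ?_, ?_, ?_, ?_, ?_, ?_⟩⟩
  · intro m k n u
    have h1 := hη4 m k n u
    have h2 := hr1 m k
    have h3 : r m k / (2 * ((n : ℝ) + 1)) ≤ (1 / 2 : ℝ) ^ (m + 6) / (n + 1) := by
      have h4 := hr0 m k
      have h5 : (0 : ℝ) < (n : ℝ) + 1 := by positivity
      rw [div_le_div_iff₀ (by positivity) h5]
      nlinarith
    exact h1.le.trans h3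
  · intro m k t
    by_cases hk : k < K m
    · rw [hw1 m k t hk]
      exact ⟨le_max_left _ _, max_le zero_le_one (min_le_left _ _)⟩
    · rw [hw0 m k t hk]
      exact ⟨le_refl _, zero_le_one⟩
  · intro m k hk
    refine hwone m k _ hk ?_
    rw [dist_self]
    exact (half_pos (hr0 m k)).le
  · intro m k n u hk
    refine hwone m k _ hk ?_
    have h1 := hη4 m k n u
    have h2 : r m k / (2 * ((n : ℝ) + 1)) ≤ r m k / 2 := by
      apply div_le_div_of_nonneg_left (hr0 m k).le (by norm_num)
      have : (0 : ℝ) ≤ n := Nat.cast_nonneg n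
      linarith
    linarith
  · intro m k t hne
    obtain ⟨hk, hd⟩ := hwne m k t hne
    refine ⟨hk, ?_⟩
    have h1 := dist_triangle t (p m k) (c m k)
    have h2 := hp1 m k
    have h3 := hr1 m k
    have h4 : (1 / 2 : ℝ) ^ (m + 5) = 2 * (1 / 2 : ℝ) ^ (m + 6) := by ring
    rw [h4]
    linarith
  · intro m k m' k' t h1 h2 hne hne'
    by_contra hcon
    have hc : (m, k) ≠ (m', k') := fun he => hcon (Prod.mk.inj he)
    obtain ⟨hk, hd⟩ := hwne m k t hne
    obtain ⟨hk', hd'⟩ := hwne m' k' t hne'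
    have h3 := hr2 m k m' k' h2 hk' hc
    have h4 := hr2 m' k' m k h1 hk (Ne.symm hc)
    rw [dist_comm (p m' k')] at h4
    have h5 := dist_triangle_left (p m k) (p m' k') t
    have h6 := hp2 m k m' k' hc
    linarith

end Pool.Agent.SSF.H4S
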